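import Pool.Agent.Helper43.TA.Trf

/-!
# Project FQ (MP_0f6f3f_an), layer UT, block U1: the law of `V_g 1`

`mass μ a E s g`: the mass of `V_g 1` on `s ⊆ Γ₂`, `g ∈ G₁` (a probability in `s`).
`mass_int`: integral formula. `mass_left`, `mass_right`: uniform continuity, uniformly in `s`. `mass_fin`: mixing.
`mass_tight`: tightness over compact sets. `mass_transfer`: two sided translates by compact sets.
-/

set_option autoImplicit false
set_option linter.unusedSectionVars false

open MeasureTheory Filter Topology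

namespace Pool.Agent.Helper9.FQ

open Pool.Agent.Helper84.NI Pool.Agent.Helper84.GVN Pool.Agent.Helper90.RK
open Pool.Agent.Helper84.GN hiding toReg
open Pool.Agent.Helper96.RK Pool.Agent.Helper66.FR Pool.Agent.Helper84.FR Pool.Agent.Helper96.FR Pool.Agent.Helper55.FR
open Pool.Agent.Helper43.TA

section Def

variable {G1 X G Λ : Type} [Group G1] [MeasurableSpace X] (μ : Measure X) [MulAction G1 X]
  [MeasurableConstSMul G1 X] [SMulInvariantMeasure G1 X μ] [IsProbabilityMeasure μ]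
  [Group G] [Group Λ] [Countable Λ] (a : Cocy G1 X Λ) (E : Emb Λ G)

/-- The mass of `V_g 1` on `s`. -/
noncomputable def mass (s : Set G) (g : G1) : ℝ := ‖cl μ (ind ℂ s) (zx μ a E g)‖ ^ 2

end Def

section Basic

variable {G1 X G Λ : Type} [Group G1] [MeasurableSpace X] {μ : Measure X} [MulAction G1 X]
  [MeasurableConstSMul G1 X] [SMulInvariantMeasure G1 X μ] [IsProbabilityMeasure μ]
  [Group G] [Group Λ] [Countable Λ] {a : Cocy G1 X Λ} {E : Emb Λ G}

omit [Group G] in
private theorem ind_sub9 {s t : Set G} (h : s ⊆ t) (f : L2 G) : ‖ind ℂ s f‖ ≤ ‖ind ℂ t f‖ := by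
  classical
  have e : ind ℂ s f = ind ℂ s (ind ℂ t f) := by
    apply l2_ext
    intro i
    rw [ind_apply, ind_apply, ind_apply]
    by_cases hi : i ∈ s
    · rw [if_pos hi, if_pos hi, if_pos (h hi)]
    · rw [if_neg hi, if_neg hi]
  rw [e]
  exact norm_ind2 _ _

theorem ind_cf_nonneg (s : Set G) (l : Λ) : 0 ≤ ‖ind ℂ s (cf (E.U l))‖ ^ 2 := sq_nonneg _

theorem ind_cf_le_one (s : Set G) (l : Λ) : ‖ind ℂ s (cf (E.U l))‖ ^ 2 ≤ 1 := by
  have h := (norm_ind2 s (cf (E.U l))).trans (norm_cf _).le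
  have := pow_le_pow_left₀ (norm_nonneg _) h 2
  rwa [one_pow] at this

theorem mass_int' (s : Set G) (g : G1) :
    mass μ a E s g = ∫ x, ‖ind ℂ s (cf (E.U (a.a g (g⁻¹ • x))))‖ ^ 2 ∂μ := by
  unfold mass
  rw [xl_norm_sq]
  refine integral_congr_ae ?_
  filter_upwards [cl_apply (μ := μ) (ind ℂ s : L2 G →L[ℂ] L2 G) (zx μ a E g),
    zv_apply (μ := μ) (E := E) (mea_a (a := a) g g⁻¹)] with x h1 h2
  rw [h1, zx_eq, h2]

/-- The integral formula. -/
theorem mass_int (s : Set G) (g : G1) : mass μ a E s g = ∫ x, ‖ind ℂ s (cf (E.U (a.a g x)))‖ ^ 2 ∂μ := by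
  rw [mass_int']
  exact integral_smul_eq_self (μ := μ) (fun x => ‖ind ℂ s (cf (E.U (a.a g x)))‖ ^ 2) (g := g⁻¹)

theorem mass_nonneg (s : Set G) (g : G1) : 0 ≤ mass μ a E s g := sq_nonneg _

theorem mass_le_one (s : Set G) (g : G1) : mass μ a E s g ≤ 1 := by
  unfold mass
  have h2 := norm_cl_le_of (μ := μ) (T := (ind ℂ s : L2 G →L[ℂ] L2 G)) zero_le_one
    (fun x => by rw [one_mul]; exact norm_ind2 s x) (zx μ a E g)
  rw [one_mul, norm_zx] at h2
  have := pow_le_pow_left₀ (norm_nonneg _) h2 2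
  rwa [one_pow] at this

theorem norm_cl_mono {s t : Set G} (h : s ⊆ t) (f : XL μ (L2 G)) : ‖cl μ (ind ℂ s) f‖ ≤ ‖cl μ (ind ℂ t) f‖ := by
  have h1 : cl μ (ind ℂ s) f = cl μ (ind ℂ s) (cl μ (ind ℂ t) f) := by
    rw [cl_ind_ind, Set.inter_eq_self_of_subset_left h]
  rw [h1]
  have h2 := norm_cl_le_of (μ := μ) (T := (ind ℂ s : L2 G →L[ℂ] L2 G)) zero_le_one
    (fun x => by rw [one_mul]; exact norm_ind2 s x) (cl μ (ind ℂ t) f)
  rw [one_mul] at h2
  exact h2

theorem mass_mono {s t : Set G} (h : s ⊆ t) (g : G1) : mass μ a E s g ≤ mass μ a E t g :=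
  pow_le_pow_left₀ (norm_nonneg _) (norm_cl_mono h _) 2

/-- Measurability of the functions of the cocycle. -/
theorem mass_sm (w : Λ → ℝ) (g : G1) : StronglyMeasurable fun x => w (a.a g x) := sm_mea (a.meas g) w

theorem mass_integrable {w : Λ → ℝ} (hw : ∀ l, |w l| ≤ 1) (g : G1) : Integrable (fun x => w (a.a g x)) μ :=
  Integrable.of_bound (mass_sm w g).aestronglyMeasurable 1 (ae_of_all _ fun _ => hw _)

/-- Two functions which agree off a small set. -/
theorem int_close {f h : X → ℝ} (hf : Integrable f μ) (hh : Integrable h μ) {B : Set X} (hB : MeasurableSet B)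
    (h0 : ∀ x, 0 ≤ f x ∧ f x ≤ 1) (h1 : ∀ x, 0 ≤ h x ∧ h x ≤ 1) (e : ∀ x, x ∉ B → f x = h x) :
    |∫ x, f x ∂μ - ∫ x, h x ∂μ| ≤ μ.real B := by
  rw [← integral_sub hf hh]
  refine (abs_integral_le_integral_abs).trans ?_
  have h2 : ∫ x, |f x - h x| ∂μ ≤ ∫ x, B.indicator (fun _ => (1 : ℝ)) x ∂μ := by
    refine integral_mono (hf.sub hh).abs ((integrable_const (1 : ℝ)).indicator hB) fun x => ?_
    by_cases hx : x ∈ B
    · rw [Set.indicator_of_mem hx, abs_le]
      have a1 := h0 x
      have a2 := h1 x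
      constructor <;> linarith
    · rw [Set.indicator_of_notMem hx]
      simp only
      rw [e x hx, sub_self, abs_zero]
  refine h2.trans (le_of_eq ?_)
  rw [integral_indicator_const _ hB, smul_eq_mul, mul_one]

theorem abs_ind_cf (s : Set G) (l : Λ) : |‖ind ℂ s (cf (E.U l))‖ ^ 2| ≤ 1 := by
  rw [abs_of_nonneg (ind_cf_nonneg s l)]
  exact ind_cf_le_one s l

theorem meas_ne (h : G1) : MeasurableSet {x | a.a h x ≠ 1} := (a.meas h 1).compl

/-- Left translates by elements with a small cocycle. -/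
theorem mass_left (s : Set G) (h g : G1) : |mass μ a E s (h * g) - mass μ a E s g| ≤ μ.real {x | a.a h x ≠ 1} := by
  rw [mass_int, mass_int]
  have hB : MeasurableSet ((fun x => g • x) ⁻¹' {x | a.a h x ≠ 1}) := measurable_const_smul g (meas_ne h)
  have e := (measurePreserving_smul g μ).measure_preimage (meas_ne (a := a) h).nullMeasurableSet
  have e' : μ.real {x | a.a h x ≠ 1} = μ.real ((fun x => g • x) ⁻¹' {x | a.a h x ≠ 1}) := by
    rw [measureReal_def, measureReal_def, e]
  rw [e']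
  refine int_close (mass_integrable (w := fun l => ‖ind ℂ s (cf (E.U l))‖ ^ 2) (abs_ind_cf s) (h * g))
    (mass_integrable (w := fun l => ‖ind ℂ s (cf (E.U l))‖ ^ 2) (abs_ind_cf s) g) hB
    (fun x => ⟨ind_cf_nonneg s _, ind_cf_le_one s _⟩) (fun x => ⟨ind_cf_nonneg s _, ind_cf_le_one s _⟩) fun x hx => ?_
  have h1 : a.a h (g • x) = 1 := by
    by_contra hne
    exact hx hne
  rw [a.mul h g x, h1, one_mul]

/-- Right translates by elements with a small cocycle. -/
theorem mass_right (s : Set G) (g h : G1) : |mass μ a E s (g * h) - mass μ a E s g| ≤ μ.real {x | a.a h x ≠ 1} := by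
  rw [mass_int, mass_int s g, ← integral_smul_eq_self (μ := μ) (fun x => ‖ind ℂ s (cf (E.U (a.a g x)))‖ ^ 2) (g := h)]
  have hi := mass_integrable (μ := μ) (a := a) (w := fun l => ‖ind ℂ s (cf (E.U l))‖ ^ 2) (abs_ind_cf s) g
  refine int_close (mass_integrable (w := fun l => ‖ind ℂ s (cf (E.U l))‖ ^ 2) (abs_ind_cf s) (g * h))
    (((measurePreserving_smul h μ).integrable_comp hi.aestronglyMeasurable).2 hi) (meas_ne h)
    (fun x => ⟨ind_cf_nonneg s _, ind_cf_le_one s _⟩) (fun x => ⟨ind_cf_nonneg s _, ind_cf_le_one s _⟩) fun x hx => ?_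
  have h1 : a.a h x = 1 := by
    by_contra hne
    exact hx hne
  change ‖ind ℂ s (cf (E.U (a.a (g * h) x)))‖ ^ 2 = ‖ind ℂ s (cf (E.U (a.a g (h • x))))‖ ^ 2
  rw [a.mul g h x, h1, mul_one]

theorem cl_univ (f : XL μ (L2 G)) : cl μ (ind ℂ (Set.univ : Set G)) f = f := by
  classical
  have h1 : (ind ℂ (Set.univ : Set G) : L2 G →L[ℂ] L2 G) = ContinuousLinearMap.id ℂ (L2 G) := by
    ext1 f
    apply l2_ext
    intro i
    rw [ind_apply, if_pos (Set.mem_univ i)]
    rfl
  rw [h1, cl_id]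

theorem mass_univ (g : G1) : mass μ a E Set.univ g = 1 := by
  unfold mass
  rw [cl_univ, norm_zx, one_pow]

theorem ind_disj {s t : Set G} (h : Disjoint s t) (f : L2 G) :
    ‖ind ℂ (s ∪ t) f‖ ^ 2 = ‖ind ℂ s f‖ ^ 2 + ‖ind ℂ t f‖ ^ 2 := by
  classical
  have h1 := lv_hasSum (ind ℂ s f)
  have h2 := lv_hasSum (ind ℂ t f)
  have h3 := lv_hasSum (ind ℂ (s ∪ t) f)
  refine h3.unique ((h1.add h2).congr_fun fun i => ?_)
  rw [ind_apply, ind_apply, ind_apply]
  by_cases h4 : i ∈ s
  · have h5 : i ∉ t := Set.disjoint_left.1 h h4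
    simp [h4, h5]
  · by_cases h5 : i ∈ t <;> simp [h4, h5]

theorem mass_disj {s t : Set G} (h : Disjoint s t) (g : G1) :
    mass μ a E (s ∪ t) g = mass μ a E s g + mass μ a E t g := by
  rw [mass_int, mass_int, mass_int, ← integral_add
    (mass_integrable (w := fun l => ‖ind ℂ s (cf (E.U l))‖ ^ 2) (abs_ind_cf s) g)
    (mass_integrable (w := fun l => ‖ind ℂ t (cf (E.U l))‖ ^ 2) (abs_ind_cf t) g)]
  refine integral_congr_ae (ae_of_all _ fun x => ?_)
  exact ind_disj h _

theorem mass_compl (s : Set G) (g : G1) : mass μ a E s g + mass μ a E sᶜ g = 1 := by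
  rw [← mass_disj disjoint_compl_right, Set.union_compl_self, mass_univ]

theorem mass_union_le (s t : Set G) (g : G1) : mass μ a E (s ∪ t) g ≤ mass μ a E s g + mass μ a E t g := by
  have h : s ∪ t = s ∪ (t \ s) := Set.union_sdiff_self.symm
  rw [h, mass_disj Set.disjoint_sdiff_right]
  exact add_le_add le_rfl (mass_mono Set.sdiff_subset g)

theorem mass_empty (g : G1) : mass μ a E ∅ g = 0 := by
  have h := mass_compl (μ := μ) (a := a) (E := E) Set.univ g
  rw [mass_univ, Set.compl_univ] at h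
  linarith

theorem mass_biUnion_le {I : Type} (T : Finset I) (s : I → Set G) (g : G1) :
    mass μ a E (⋃ i ∈ T, s i) g ≤ ∑ i ∈ T, mass μ a E (s i) g := by
  classical
  induction T using Finset.induction_on with
  | empty =>
    rw [Finset.sum_empty]
    have h1 : (⋃ i ∈ (∅ : Finset I), s i) = ∅ := by simp
    rw [h1, mass_empty]
  | insert i T hi ih =>
    rw [Finset.sum_insert hi, Finset.set_biUnion_insert]
    exact (mass_union_le _ _ g).trans (add_le_add le_rfl ih)

/-- The masses along a sequence converge to `ms` along the ultrafilter. -/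
theorem ms_eq_lim (s : Set G) (g : ℕ → G1) :
    Tendsto (fun n => mass μ a E s (g n)) (hyperfilter ℕ : Filter ℕ) (𝓝 (ms μ a E s g)) := ms_tendsto s g

/-- The law on points. -/
theorem hasSum_mass [Countable G] (s : Set G) (g : G1) : HasSum (fun k : G => s.indicator (fun k => mass μ a E {k} g) k)
    (mass μ a E s g) := by
  classical
  have hi := fun t : Set G => mass_integrable (μ := μ) (a := a) (w := fun l => ‖ind ℂ t (cf (E.U l))‖ ^ 2) (abs_ind_cf t) g
  have e1 : ∀ (k : G) (f : L2 G), ‖ind ℂ {k} f‖ ^ 2 = ‖f k‖ ^ 2 := by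
    intro k f
    have h1 := norm_ind_finset ({k} : Finset G) f
    rwa [Finset.coe_singleton, Finset.sum_singleton] at h1
  have e2 : ∀ f : L2 G, HasSum (fun k : G => s.indicator (fun k => ‖f k‖ ^ 2) k) (‖ind ℂ s f‖ ^ 2) := by
    intro f
    refine (lv_hasSum (ind ℂ s f)).congr_fun fun i => ?_
    rw [ind_apply]
    by_cases h : i ∈ s
    · rw [Set.indicator_of_mem h, if_pos h]
    · rw [Set.indicator_of_notMem h, if_neg h, norm_zero, zero_pow two_ne_zero]
  have e3 : ∀ k : G, s.indicator (fun k => mass μ a E {k} g) k =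
      ∫ x, s.indicator (fun k => ‖cf (E.U (a.a g x)) k‖ ^ 2) k ∂μ := by
    intro k
    by_cases h : k ∈ s
    · rw [Set.indicator_of_mem h, mass_int]
      refine integral_congr_ae (ae_of_all _ fun x => ?_)
      simp only [Set.indicator_of_mem h]
      exact e1 k _
    · simp only [Set.indicator_of_notMem h, integral_zero]
  have e4 : ∀ k : G, Integrable (fun x => s.indicator (fun k => ‖cf (E.U (a.a g x)) k‖ ^ 2) k) μ := by
    intro k
    by_cases h : k ∈ s
    · refine (hi {k}).congr (ae_of_all _ fun x => ?_)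
      simp only [Set.indicator_of_mem h]
      exact e1 k _
    · simp only [Set.indicator_of_notMem h]
      exact integrable_zero _ _ _
  have e5 : ∀ k x, ‖s.indicator (fun k => ‖cf (E.U (a.a g x)) k‖ ^ 2) k‖ =
      s.indicator (fun k => ‖cf (E.U (a.a g x)) k‖ ^ 2) k := fun k x =>
    Real.norm_of_nonneg (Set.indicator_nonneg (fun _ _ => sq_nonneg _) _)
  have e6 : Summable fun k : G => ∫ x, ‖s.indicator (fun k => ‖cf (E.U (a.a g x)) k‖ ^ 2) k‖ ∂μ := by
    simp only [e5]
    refine summable_of_sum_le (c := 1) (fun k => integral_nonneg fun x => Set.indicator_nonneg (fun _ _ => sq_nonneg _) _)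
      fun T => ?_
    rw [← integral_finsetSum T fun k _ => e4 k]
    have h1 : ∫ x, ∑ k ∈ T, s.indicator (fun k => ‖cf (E.U (a.a g x)) k‖ ^ 2) k ∂μ ≤ ∫ _x, (1 : ℝ) ∂μ := by
      refine integral_mono (integrable_finsetSum T fun k _ => e4 k) (integrable_const _) fun x => ?_
      refine (sum_le_hasSum T (fun k _ => Set.indicator_nonneg (fun _ _ => sq_nonneg _) _) (e2 _)).trans ?_
      exact ind_cf_le_one s _
    refine h1.trans (le_of_eq ?_)
    simp
  have h2 := hasSum_integral_of_summable_integral_norm e4 e6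
  have h3 : (∫ x, ∑' k : G, s.indicator (fun k => ‖cf (E.U (a.a g x)) k‖ ^ 2) k ∂μ) = mass μ a E s g := by
    rw [mass_int]
    exact integral_congr_ae (ae_of_all _ fun x => (e2 _).tsum_eq)
  rw [h3] at h2
  exact h2.congr_fun e3

end Basic

end Pool.Agent.Helper9.FQ
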