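import Pool.Agent.Helper9.FQ.U1

/-!
# Project FQ (MP_0f6f3f_an), layer UT, block U2: uniform properties of the law of `V_g 1`

`mass_fin`: mixing. `mass_transfer`: two sided translates by compact sets. `mass_tight`: tightness over compact sets.
`mass_sandwich`: `V_{w^n g w^m}` for `g = p l q` in the big cell of `w`.
-/

set_option autoImplicit false
set_option linter.unusedSectionVars false

open MeasureTheory Filter Topology

namespace Pool.Agent.Helper9.FQ

open Pool.Agent.Helper84.NI Pool.Agent.Helper84.GVN Pool.Agent.Helper90.RK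
open Pool.Agent.Helper84.GN hiding toReg
open Pool.Agent.Helper96.RK Pool.Agent.Helper66.FR Pool.Agent.Helper84.FR Pool.Agent.Helper96.FR Pool.Agent.Helper55.FR
open Pool.Agent.Helper43.TA

variable {G1 X G Λ : Type} [Group G1] [TopologicalSpace G1] [IsTopologicalGroup G1] [MeasurableSpace X] {μ : Measure X}
  [MulAction G1 X] [MeasurableConstSMul G1 X] [SMulInvariantMeasure G1 X μ] [IsProbabilityMeasure μ]
  [Group G] [Group Λ] [Countable Λ] {a : Cocy G1 X Λ} {E : Emb Λ G}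

omit [TopologicalSpace G1] [IsTopologicalGroup G1] in
/-- Values of the cocycle in a finite set. -/
theorem mass_le_fin (s : Set G) (T : Finset Λ) {ε : ℝ} (hε : 0 ≤ ε)
    (hT : ∀ l, l ∉ T → ‖ind ℂ s (cf (E.U l))‖ ^ 2 ≤ ε) (g : G1) :
    mass μ a E s g ≤ ∑ l ∈ T, μ.real {x | a.a g x = l} + ε := by
  classical
  rw [mass_int]
  have hm : ∀ l, MeasurableSet {x | a.a g x = l} := fun l => a.meas g l
  have h1 : ∫ x, ‖ind ℂ s (cf (E.U (a.a g x)))‖ ^ 2 ∂μ ≤
      ∫ x, (∑ l ∈ T, Set.indicator {x | a.a g x = l} (fun _ => (1 : ℝ)) x + ε) ∂μ := by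
    refine integral_mono (mass_integrable (w := fun l => ‖ind ℂ s (cf (E.U l))‖ ^ 2) (abs_ind_cf s) g)
      ((integrable_finsetSum T fun l _ => (integrable_const (1 : ℝ)).indicator (hm l)).add (integrable_const ε)) fun x => ?_
    have h0 : 0 ≤ ∑ l ∈ T, Set.indicator {x | a.a g x = l} (fun _ => (1 : ℝ)) x :=
      Finset.sum_nonneg fun l _ => Set.indicator_nonneg (fun _ _ => zero_le_one) _
    by_cases hx : a.a g x ∈ T
    · have h2 : (1 : ℝ) ≤ ∑ l ∈ T, Set.indicator {x | a.a g x = l} (fun _ => (1 : ℝ)) x := by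
        have h3 := Finset.single_le_sum (f := fun l => Set.indicator {x | a.a g x = l} (fun _ => (1 : ℝ)) x)
          (fun l _ => Set.indicator_nonneg (fun _ _ => zero_le_one) _) hx
        have h4 : Set.indicator {y | a.a g y = a.a g x} (fun _ => (1 : ℝ)) x = 1 := by
          have hx' : x ∈ {y | a.a g y = a.a g x} := rfl
          rw [Set.indicator_of_mem hx']
        rw [h4] at h3
        exact h3
      have h5 := ind_cf_le_one (E := E) s (a.a g x)
      change ‖ind ℂ s (cf (E.U (a.a g x)))‖ ^ 2 ≤ ∑ l ∈ T, Set.indicator {x | a.a g x = l} (fun _ => (1 : ℝ)) x + ε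
      linarith
    · have h5 := hT _ hx
      change ‖ind ℂ s (cf (E.U (a.a g x)))‖ ^ 2 ≤ ∑ l ∈ T, Set.indicator {x | a.a g x = l} (fun _ => (1 : ℝ)) x + ε
      linarith
  refine h1.trans (le_of_eq ?_)
  rw [integral_add (integrable_finsetSum T fun l _ => (integrable_const (1 : ℝ)).indicator (hm l)) (integrable_const ε),
    integral_finsetSum T fun l _ => (integrable_const (1 : ℝ)).indicator (hm l)]
  congr 1
  · refine Finset.sum_congr rfl fun l _ => ?_
    rw [integral_indicator_const _ (hm l), smul_eq_mul, mul_one]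
  · simp

omit [IsTopologicalGroup G1] in
/-- Mixing: the mass on a finite set tends to zero at infinity. -/
theorem mass_fin (hF2 : ∀ l : Λ, Tendsto (fun g : G1 => μ {x | a.a g x = l}) (cocompact G1) (𝓝 0))
    {S : Set G} (hS : S.Finite) : Tendsto (fun g => mass μ a E S g) (cocompact G1) (𝓝 0) := by
  classical
  rw [Metric.tendsto_nhds]
  intro ε hε
  have hsum := summable_mass E hS.toFinset
  rw [hS.coe_toFinset] at hsum
  have h2 : {l : Λ | ¬ ‖ind ℂ S (cf (E.U l))‖ ^ 2 < ε / 2}.Finite :=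
    hsum.tendsto_cofinite_zero.eventually (gt_mem_nhds (show (0 : ℝ) < ε / 2 by positivity))
  have h3 : Tendsto (fun g : G1 => ∑ l ∈ h2.toFinset, μ.real {x | a.a g x = l}) (cocompact G1) (𝓝 0) := by
    have h4 := tendsto_finsetSum h2.toFinset (f := fun l (g : G1) => μ.real {x | a.a g x = l}) (a := fun _ => 0)
      (x := cocompact G1) fun l _ => by
        have h5 := (ENNReal.tendsto_toReal ENNReal.zero_ne_top).comp (hF2 l)
        rw [ENNReal.toReal_zero] at h5
        exact h5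
    simpa using h4
  filter_upwards [h3.eventually (gt_mem_nhds (show (0 : ℝ) < ε / 2 by positivity))] with g hg
  have h6 := mass_le_fin (μ := μ) (a := a) (E := E) S h2.toFinset (half_pos hε).le (fun l hl => by
    rw [h2.mem_toFinset] at hl
    simp only [Set.mem_ofPred_eq, not_not] at hl
    exact hl.le) g
  rw [Real.dist_eq, sub_zero, abs_of_nonneg (mass_nonneg _ _)]
  linarith

/-- Two sided translates by elements of a compact set. -/
theorem mass_transfer (h3 : Tendsto (fun g : G1 => μ {x | a.a g x ≠ 1}) (𝓝 1) (𝓝 0)) {K : Set G1} (hK : IsCompact K)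
    {ε : ℝ} (hε : 0 < ε) : ∃ (Q : Finset G) (C : ℝ), 0 ≤ C ∧ ∀ k ∈ K, ∀ k' ∈ K, ∀ (g : G1) (s : Set G),
      mass μ a E s (k * g * k') ≤ C * mass μ a E (shf Q s) g + ε := by
  obtain ⟨Q, C, hC, h⟩ := transfer (E := E) h3 hK (ε := Real.sqrt (ε / 2)) (Real.sqrt_pos.2 (half_pos hε))
  refine ⟨Q, 2 * C ^ 2, by positivity, fun k hk k' hk' g s => ?_⟩
  have h1 := h k hk k' hk' g s
  have h2 := Real.sq_sqrt (half_pos hε).le
  have h4 := pow_le_pow_left₀ (norm_nonneg _) h1 2
  unfold mass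
  refine h4.trans ?_
  have h5 : (C * ‖cl μ (ind ℂ (shf Q s)) (zx μ a E g)‖ + Real.sqrt (ε / 2)) ^ 2 ≤
      2 * (C * ‖cl μ (ind ℂ (shf Q s)) (zx μ a E g)‖) ^ 2 + 2 * Real.sqrt (ε / 2) ^ 2 := by
    nlinarith [sq_nonneg (C * ‖cl μ (ind ℂ (shf Q s)) (zx μ a E g)‖ - Real.sqrt (ε / 2))]
  refine h5.trans (le_of_eq ?_)
  rw [h2, mul_pow]
  ring

omit [TopologicalSpace G1] [IsTopologicalGroup G1] in
theorem coc_one (x : X) : a.a 1 x = 1 := by
  have h := a.mul 1 1 x
  rw [mul_one, one_smul] at h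
  exact mul_eq_left.1 h.symm

omit [TopologicalSpace G1] [IsTopologicalGroup G1] in
theorem mass_one {s : Set G} (hs : (1 : G) ∉ s) : mass μ a E s 1 = 0 := by
  classical
  rw [mass_int]
  have h1 : ∀ x : X, ‖ind ℂ s (cf (E.U (a.a 1 x)))‖ ^ 2 = 0 := by
    intro x
    rw [coc_one, map_one]
    have h2 : ind ℂ s (cf (1 : L2 G ≃ₗᵢ[ℂ] L2 G)) = 0 := by
      apply l2_ext
      intro i
      rw [ind_apply]
      split_ifs with hi
      · change (dl 1 : L2 G) i = 0
        have hne : i ≠ 1 := fun h => hs (h ▸ hi)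
        rw [dl_apply, if_neg hne]
      · rfl
    rw [h2, norm_zero, zero_pow two_ne_zero]
  simp only [h1, integral_zero]

/-- Tightness over compact sets. -/
theorem mass_tight (h3 : Tendsto (fun g : G1 => μ {x | a.a g x ≠ 1}) (𝓝 1) (𝓝 0)) {K : Set G1} (hK : IsCompact K)
    {ε : ℝ} (hε : 0 < ε) : ∃ S : Finset G, ∀ k ∈ K, mass μ a E (S : Set G)ᶜ k ≤ ε := by
  classical
  obtain ⟨Q, C, hC, h⟩ := mass_transfer (E := E) h3 (hK.insert 1) hε
  refine ⟨(Q ×ˢ Q).image fun p => p.1 * p.2, fun k hk => ?_⟩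
  have h1 := h k (Set.mem_insert_of_mem _ hk) 1 (Set.mem_insert _ _) 1
    (((Q ×ˢ Q).image fun p => p.1 * p.2 : Finset G) : Set G)ᶜ
  rw [mul_one, mul_one] at h1
  refine h1.trans (le_of_eq ?_)
  rw [mass_one (μ := μ) (a := a) (E := E), mul_zero, zero_add]
  rintro ⟨q, hq, q', hq', hs⟩
  apply hs
  rw [mul_one]
  exact Finset.mem_coe.2 (Finset.mem_image.2 ⟨(q, q'), Finset.mem_product.2 ⟨hq, hq'⟩, rfl⟩)

/-- The law of `V_g 1` depends continuously on `g`, uniformly in the set. -/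
theorem mass_cont_left (h3 : Tendsto (fun g : G1 => μ {x | a.a g x ≠ 1}) (𝓝 1) (𝓝 0)) {ε : ℝ} (hε : 0 < ε) :
    ∀ᶠ h in 𝓝 (1 : G1), ∀ (g : G1) (s : Set G), |mass μ a E s (h * g) - mass μ a E s g| ≤ ε := by
  have h1 := (ENNReal.tendsto_toReal ENNReal.zero_ne_top).comp h3
  rw [ENNReal.toReal_zero] at h1
  filter_upwards [h1.eventually (gt_mem_nhds hε)] with h hh g s
  exact (mass_left s h g).trans (le_of_lt hh)

theorem mass_cont_right (h3 : Tendsto (fun g : G1 => μ {x | a.a g x ≠ 1}) (𝓝 1) (𝓝 0)) {ε : ℝ} (hε : 0 < ε) :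
    ∀ᶠ h in 𝓝 (1 : G1), ∀ (g : G1) (s : Set G), |mass μ a E s (g * h) - mass μ a E s g| ≤ ε := by
  have h1 := (ENNReal.tendsto_toReal ENNReal.zero_ne_top).comp h3
  rw [ENNReal.toReal_zero] at h1
  filter_upwards [h1.eventually (gt_mem_nhds hε)] with h hh g s
  exact (mass_right s g h).trans (le_of_lt hh)

/-- `V_{w^n g w^m}` for `g = p l q` in the big cell of `w`. -/
theorem mass_sandwich (h3 : Tendsto (fun g : G1 => μ {x | a.a g x ≠ 1}) (𝓝 1) (𝓝 0)) {w p l q : G1}
    (hp : Tendsto (fun n : ℕ => w ^ n * p * (w ^ n)⁻¹) atTop (𝓝 1)) (hl : l * w = w * l)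
    (hq : Tendsto (fun m : ℕ => (w ^ m)⁻¹ * q * w ^ m) atTop (𝓝 1)) {ε : ℝ} (hε : 0 < ε) :
    ∃ n0 : ℕ, ∀ n m : ℕ, n0 ≤ n → n0 ≤ m → ∀ s : Set G,
      |mass μ a E s (w ^ n * (p * l * q) * w ^ m) - mass μ a E s (w ^ (n + m) * l)| ≤ ε := by
  have h1 := hp.eventually (mass_cont_left (μ := μ) (a := a) (E := E) h3 (half_pos hε))
  have h2 := hq.eventually (mass_cont_right (μ := μ) (a := a) (E := E) h3 (half_pos hε))
  obtain ⟨n1, hn1⟩ := eventually_atTop.1 h1
  obtain ⟨n2, hn2⟩ := eventually_atTop.1 h2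
  refine ⟨max n1 n2, fun n m hn hm s => ?_⟩
  have e : w ^ n * (p * l * q) * w ^ m = w ^ n * p * (w ^ n)⁻¹ * (w ^ (n + m) * l) * ((w ^ m)⁻¹ * q * w ^ m) := by
    have hc : w ^ m * l = l * w ^ m := by
      have h : Commute w l := hl.symm
      exact (h.pow_left m).eq
    rw [pow_add]
    have h5 : w ^ n * w ^ m * l = w ^ n * (l * w ^ m) := by rw [mul_assoc, hc]
    rw [h5]
    group
  rw [e]
  have a1 := hn2 m ((le_max_right _ _).trans hm) (w ^ n * p * (w ^ n)⁻¹ * (w ^ (n + m) * l)) s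
  have a2 := hn1 n ((le_max_left _ _).trans hn) (w ^ (n + m) * l) s
  rw [abs_le] at a1 a2 ⊢
  constructor <;> linarith [a1.1, a1.2, a2.1, a2.2]

end Pool.Agent.Helper9.FQ
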