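import Pool.Agent.Helper9.FQ.U3
import Pool.Agent.Helper43.FQ.Typ

/-!
# Project FQ (MP_0f6f3f_an), layer UT, block U4: the theorem on types in the form of masses

`no_twoM`, `no_two_KM`, `no_two_cellM`: no mass on two large gaps for the elements of `F`, their two sided translates by compact sets, and for `V_{w^n g w^m}`.
`one_sumM`: for `f ∈ F` (and its translates) the masses of the sets `one A j R L` sum up to `1 - β` at least, as soon as `f` is outside of a compact set depending on `L`.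
-/

set_option autoImplicit false
set_option linter.unusedSectionVars false

open MeasureTheory Filter Topology

namespace Pool.Agent.Helper9.FQ

open Pool.Agent.Helper84.NI Pool.Agent.Helper84.GVN Pool.Agent.Helper90.RK
open Pool.Agent.Helper84.GN hiding toReg
open Pool.Agent.Helper96.RK Pool.Agent.Helper66.FR Pool.Agent.Helper84.FR Pool.Agent.Helper96.FR Pool.Agent.Helper55.FR
open Pool.Agent.Helper43.TA Pool.Agent.Helper43.FQ

theorem two_eq {G : Type} [Group G] {r : ℕ} (A : Gp G r) (R : ℕ) : two A R = A.LG 2 R := by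
  classical
  ext γ
  constructor
  · rintro ⟨i, j, hij, h1, h2⟩
    refine ⟨{i, j}, Finset.card_pair hij, fun k hk => ?_⟩
    rcases Finset.mem_insert.1 hk with rfl | hk
    · exact h1
    · rw [Finset.mem_singleton.1 hk]
      exact h2
  · rintro ⟨T, hT, h⟩
    obtain ⟨i, j, hij, rfl⟩ := Finset.card_eq_two.1 hT
    exact ⟨i, j, hij, h i (by simp), h j (by simp)⟩

variable {G1 X G Λ : Type} [Group G1] [TopologicalSpace G1] [IsTopologicalGroup G1] [MeasurableSpace X] {μ : Measure X}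
  [MulAction G1 X] [MeasurableConstSMul G1 X] [SMulInvariantMeasure G1 X μ] [IsProbabilityMeasure μ]
  [Group G] [Group Λ] [Countable Λ] {a : Cocy G1 X Λ} {E : Emb Λ G} {r s : ℕ} {A : Gp G r} {F : Subgroup G1}

/-- U1. No mass on two large gaps. -/
theorem no_twoM (hco : ∀ J, HasCoc (A.reg J)) (hs : s + 1 = r) (D : DatN μ a F s) {β : ℝ} (hβ : 0 < β) :
    ∃ R : ℕ, ∀ f ∈ F, mass μ a E (two A R) f < β := by
  obtain ⟨R, hR⟩ := no_more (E := E) hco D (j := 2) one_le_two (by omega) (Real.sqrt_pos.2 hβ)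
  refine ⟨R, fun f hf => ?_⟩
  rw [two_eq]
  unfold mass
  have h1 := hR f hf
  have h2 := pow_lt_pow_left₀ h1 (norm_nonneg _) two_ne_zero
  rwa [Real.sq_sqrt hβ.le] at h2

/-- U3. No mass on two large gaps, two sided translates. -/
theorem no_two_KM (hco : ∀ J, HasCoc (A.reg J)) (hs : s + 1 = r) (D : DatN μ a F s) {K : Set G1} (hK : IsCompact K)
    {β : ℝ} (hβ : 0 < β) : ∃ R : ℕ, ∀ k ∈ K, ∀ k' ∈ K, ∀ f ∈ F, mass μ a E (two A R) (k * f * k') < β :=
  two_K D.h3 (F := (F : Set G1)) (fun _ h => no_twoM hco hs D h) hK hβ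

/-- U3. No mass on two large gaps for `V_{w^n g w^m}`. -/
theorem no_two_cellM (hco : ∀ J, HasCoc (A.reg J)) (hs : s + 1 = r) (D : DatN μ a F s) {w p l q : G1} (hw : w ∈ F)
    (hp : Tendsto (fun n : ℕ => w ^ n * p * (w ^ n)⁻¹) atTop (𝓝 1)) (hl : l * w = w * l)
    (hq : Tendsto (fun m : ℕ => (w ^ m)⁻¹ * q * w ^ m) atTop (𝓝 1)) {β : ℝ} (hβ : 0 < β) :
    ∃ R n0 : ℕ, ∀ n m : ℕ, n0 ≤ n → n0 ≤ m → mass μ a E (two A R) (w ^ n * (p * l * q) * w ^ m) < β :=
  two_cell D.h3 (fun _ h => no_twoM hco hs D h) hw hp hl hq hβ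

/-- U4. The masses of the types sum up to one: for every sequence (filter) `f i ∈ F` which leaves the compact sets, with two sided translates. -/
theorem one_sumM (hco : ∀ J, HasCoc (A.reg J)) (hs : s + 1 = r) (D : DatN μ a F s) {K : Set G1} (hK : IsCompact K)
    {β : ℝ} (hβ : 0 < β) : ∃ R : ℕ, ∀ L : ℕ, ∃ C : Set G1, IsCompact C ∧ ∀ k ∈ K, ∀ k' ∈ K, ∀ f ∈ F, f ∉ C →
      1 - β ≤ ∑ j, mass μ a E (one A j R L) (k * f * k') := by
  obtain ⟨R, hR⟩ := no_two_KM (E := E) hco hs D hK (half_pos hβ)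
  refine ⟨R, fun L => ?_⟩
  have h1 := (sml_tendsto (E := E) (A := A) D.hF2 L).eventually (gt_mem_nhds (half_pos hβ))
  obtain ⟨C, hC, hCs⟩ := mem_cocompact.1 h1
  refine ⟨(fun p : G1 × G1 × G1 => p.1⁻¹ * p.2.1 * p.2.2⁻¹) '' (K ×ˢ C ×ˢ K),
    (hK.prod (hC.prod hK)).image (by fun_prop), fun k hk k' hk' f hf hfC => ?_⟩
  have h2 : k * f * k' ∉ C := by
    intro h
    exact hfC ⟨(k, k * f * k', k'), ⟨hk, h, hk'⟩, by group⟩
  have h3 := hCs h2
  have h4 := one_sum (μ := μ) (a := a) (E := E) (A := A) R L (k * f * k')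
  have h5 := hR k hk k' hk' f hf
  have h6 : mass μ a E (sml A L) (k * f * k') < β / 2 := h3
  linarith

end Pool.Agent.Helper9.FQ
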