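import Pool.Agent.Helper9.FQ.U2
import Pool.Agent.Helper43.FQ.Gap

/-!
# Project FQ (MP_0f6f3f_an), layer UT, block U3: uniform consequences of the theorems on types

`two A R`: two gaps are larger than `R`. `sml A R`: all gaps are at most `R`. `one A j R L`: the gap `j` is larger than `L`, the others are at most `R`.
`sml_tendsto`: the mass on `sml A R` tends to zero at infinity. `two_K`, `one_K`: two sided translates by compact sets of elements of a set `F`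
(resp. of a sequence) without mass on two large gaps (resp. of type `j`). `two_cell`, `one_cell`: `V_{w^n g w^m}` for `g = p l q` in the big cell of `w`.
-/

set_option autoImplicit false
set_option linter.unusedSectionVars false

open MeasureTheory Filter Topology

namespace Pool.Agent.Helper9.FQ

open Pool.Agent.Helper84.NI Pool.Agent.Helper84.GVN Pool.Agent.Helper90.RK
open Pool.Agent.Helper84.GN hiding toReg
open Pool.Agent.Helper96.RK Pool.Agent.Helper66.FR Pool.Agent.Helper84.FR Pool.Agent.Helper96.FR Pool.Agent.Helper55.FR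
open Pool.Agent.Helper43.TA Pool.Agent.Helper43.FQ

section Sets

variable {G : Type} [Group G] {r : ℕ} (A : Gp G r)

/-- Two gaps are larger than `R`. -/
def two (R : ℕ) : Set G := {γ | ∃ i j, i ≠ j ∧ (R : ℝ) < A.gap γ i ∧ (R : ℝ) < A.gap γ j}

/-- All gaps are at most `R`. -/
def sml (R : ℕ) : Set G := {γ | ∀ i, A.gap γ i ≤ R}

/-- The gap `j` is larger than `L`, the others are at most `R`. -/
def one (j : Fin r) (R L : ℕ) : Set G := {γ | (L : ℝ) < A.gap γ j ∧ ∀ i, i ≠ j → A.gap γ i ≤ R}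

theorem two_anti {R R' : ℕ} (h : R ≤ R') : two A R' ⊆ two A R := by
  rintro γ ⟨i, j, hij, h1, h2⟩
  have h3 : (R : ℝ) ≤ R' := by exact_mod_cast h
  exact ⟨i, j, hij, lt_of_le_of_lt h3 h1, lt_of_le_of_lt h3 h2⟩

theorem sml_mono {R R' : ℕ} (h : R ≤ R') : sml A R ⊆ sml A R' := fun _ hγ i =>
  (hγ i).trans (by exact_mod_cast h)

theorem one_mono {j : Fin r} {R R' L L' : ℕ} (hR : R ≤ R') (hL : L' ≤ L) : one A j R L ⊆ one A j R' L' := by
  rintro γ ⟨h1, h2⟩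
  have h3 : (L' : ℝ) ≤ L := by exact_mod_cast hL
  have h4 : (R : ℝ) ≤ R' := by exact_mod_cast hR
  exact ⟨lt_of_le_of_lt h3 h1, fun i hi => (h2 i hi).trans h4⟩

/-- The decomposition. -/
theorem cover (R L : ℕ) : (Set.univ : Set G) ⊆ (two A R ∪ sml A L) ∪ ⋃ j ∈ (Finset.univ : Finset (Fin r)), one A j R L := by
  intro γ _
  by_cases h1 : γ ∈ sml A L
  · exact Or.inl (Or.inr h1)
  by_cases h2 : γ ∈ two A R
  · exact Or.inl (Or.inl h2)
  right
  have h3 : ∃ j, (L : ℝ) < A.gap γ j := by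
    by_contra hcon
    push Not at hcon
    exact h1 hcon
  obtain ⟨j0, hj0⟩ := h3
  obtain ⟨j, -, hj⟩ := Finset.exists_max_image (Finset.univ : Finset (Fin r)) (fun i => A.gap γ i) ⟨j0, Finset.mem_univ _⟩
  refine Set.mem_biUnion (Finset.mem_coe.2 (Finset.mem_univ j)) ⟨lt_of_lt_of_le hj0 (hj j0 (Finset.mem_univ _)), fun i hi => ?_⟩
  by_contra hcon
  push Not at hcon
  exact h2 ⟨i, j, hi, hcon, lt_of_lt_of_le hcon (hj i (Finset.mem_univ _))⟩

theorem shf_gap (Q : Finset G) : ∃ C : ℕ, ∀ q ∈ Q, ∀ q' ∈ Q, ∀ γ l, A.gap (q * γ * q') l ≤ A.gap γ l + C ∧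
    A.gap γ l ≤ A.gap (q * γ * q') l + C := by
  classical
  choose C hC using fun q q' : G => A.gshift q⁻¹ q'
  refine ⟨∑ p ∈ Q ×ˢ Q, C p.1 p.2, fun q hq q' hq' γ l => ?_⟩
  have h1 : (C q q' : ℝ) ≤ (∑ p ∈ Q ×ˢ Q, C p.1 p.2 : ℕ) := by
    exact_mod_cast Finset.single_le_sum (f := fun p : G × G => C p.1 p.2) (fun _ _ => Nat.zero_le _)
      (Finset.mem_product.2 ⟨hq, hq'⟩ : (q, q') ∈ Q ×ˢ Q)
  have h2 := hC q q' γ l
  rw [inv_inv] at h2
  constructor <;> linarith [h2.1, h2.2]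

theorem shf_two (Q : Finset G) : ∃ C : ℕ, ∀ R, shf Q (two A (R + C)) ⊆ two A R := by
  obtain ⟨C, hC⟩ := shf_gap A Q
  refine ⟨C, fun R γ => ?_⟩
  rintro ⟨q, hq, q', hq', i, j, hij, h1, h2⟩
  push_cast at h1 h2
  refine ⟨i, j, hij, ?_, ?_⟩
  · linarith [(hC q hq q' hq' γ i).1]
  · linarith [(hC q hq q' hq' γ j).1]

theorem shf_sml (Q : Finset G) : ∃ C : ℕ, ∀ R, shf Q (sml A R) ⊆ sml A (R + C) := by
  obtain ⟨C, hC⟩ := shf_gap A Q
  refine ⟨C, fun R γ => ?_⟩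
  rintro ⟨q, hq, q', hq', h⟩ i
  push_cast
  linarith [(hC q hq q' hq' γ i).2, h i]

theorem shf_one (Q : Finset G) (j : Fin r) : ∃ C : ℕ, ∀ R L, shf Q (one A j (R + C) L)ᶜ ⊆ (one A j R (L + C))ᶜ := by
  obtain ⟨C, hC⟩ := shf_gap A Q
  refine ⟨C, fun R L γ => ?_⟩
  rintro ⟨q, hq, q', hq', h⟩ ⟨h1, h2⟩
  apply h
  push_cast at h1
  refine ⟨by linarith [(hC q hq q' hq' γ j).2], fun i hi => ?_⟩
  push_cast
  linarith [(hC q hq q' hq' γ i).1, h2 i hi]

end Sets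

variable {G1 X G Λ : Type} [Group G1] [TopologicalSpace G1] [IsTopologicalGroup G1] [MeasurableSpace X] {μ : Measure X}
  [MulAction G1 X] [MeasurableConstSMul G1 X] [SMulInvariantMeasure G1 X μ] [IsProbabilityMeasure μ]
  [Group G] [Group Λ] [Countable Λ] {a : Cocy G1 X Λ} {E : Emb Λ G} {r : ℕ} {A : Gp G r}

omit [IsTopologicalGroup G1] in
/-- The mass on the elements with small gaps tends to zero at infinity. -/
theorem sml_tendsto (hF2 : ∀ l : Λ, Tendsto (fun g : G1 => μ {x | a.a g x = l}) (cocompact G1) (𝓝 0)) (R : ℕ) :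
    Tendsto (fun g => mass μ a E (sml A R) g) (cocompact G1) (𝓝 0) := mass_fin hF2 (A.gfin R)

/-- Almost all the mass is on the sets `one A j R L`. -/
theorem one_sum (R L : ℕ) (g : G1) :
    1 ≤ mass μ a E (two A R) g + mass μ a E (sml A L) g + ∑ j, mass μ a E (one A j R L) g := by
  have h1 := mass_mono (μ := μ) (a := a) (E := E) (cover A R L) g
  rw [mass_univ] at h1
  refine h1.trans ((mass_union_le _ _ g).trans (add_le_add (mass_union_le _ _ g) ?_))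
  exact mass_biUnion_le _ _ g

/-- Two sided translates by compact sets: no mass on two large gaps. -/
theorem two_K (h3 : Tendsto (fun g : G1 => μ {x | a.a g x ≠ 1}) (𝓝 1) (𝓝 0)) {F : Set G1}
    (hF : ∀ β : ℝ, 0 < β → ∃ R : ℕ, ∀ f ∈ F, mass μ a E (two A R) f < β) {K : Set G1} (hK : IsCompact K)
    {β : ℝ} (hβ : 0 < β) : ∃ R : ℕ, ∀ k ∈ K, ∀ k' ∈ K, ∀ f ∈ F, mass μ a E (two A R) (k * f * k') < β := by
  obtain ⟨Q, C, hC, h⟩ := mass_transfer (E := E) h3 hK (half_pos hβ)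
  have hC' : (0 : ℝ) < C + 1 := by linarith
  obtain ⟨R0, hR0⟩ := hF (β / (2 * (C + 1))) (by positivity)
  obtain ⟨C0, hC0⟩ := shf_two A Q
  refine ⟨R0 + C0, fun k hk k' hk' f hf => ?_⟩
  have e1 := h k hk k' hk' f (two A (R0 + C0))
  have e2 := mass_mono (μ := μ) (a := a) (E := E) (hC0 R0) f
  have e3 := hR0 f hf
  have e4 : C * mass μ a E (shf Q (two A (R0 + C0))) f ≤ C * (β / (2 * (C + 1))) :=
    mul_le_mul_of_nonneg_left (e2.trans e3.le) hC
  have e6 : C * (β / (2 * (C + 1))) < β / 2 := by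
    rw [mul_div_assoc', div_lt_div_iff₀ (by positivity) two_pos]
    nlinarith
  linarith

/-- No mass on two large gaps for `V_{w^n g w^m}`, `g = p l q` in the big cell of `w`. -/
theorem two_cell (h3 : Tendsto (fun g : G1 => μ {x | a.a g x ≠ 1}) (𝓝 1) (𝓝 0)) {F : Subgroup G1}
    (hF : ∀ β : ℝ, 0 < β → ∃ R : ℕ, ∀ f ∈ F, mass μ a E (two A R) f < β) {w p l q : G1} (hw : w ∈ F)
    (hp : Tendsto (fun n : ℕ => w ^ n * p * (w ^ n)⁻¹) atTop (𝓝 1)) (hl : l * w = w * l)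
    (hq : Tendsto (fun m : ℕ => (w ^ m)⁻¹ * q * w ^ m) atTop (𝓝 1)) {β : ℝ} (hβ : 0 < β) :
    ∃ R n0 : ℕ, ∀ n m : ℕ, n0 ≤ n → n0 ≤ m → mass μ a E (two A R) (w ^ n * (p * l * q) * w ^ m) < β := by
  obtain ⟨R, hR⟩ := two_K (A := A) (E := E) h3 (F := (F : Set G1)) hF (K := {1, l}) (Set.toFinite _).isCompact (half_pos hβ)
  obtain ⟨n0, hn0⟩ := mass_sandwich (μ := μ) (a := a) (E := E) h3 hp hl hq (half_pos hβ)
  refine ⟨R, n0, fun n m hn hm => ?_⟩
  have h1 := hn0 n m hn hm (two A R)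
  have h2 := hR 1 (Set.mem_insert _ _) l (Set.mem_insert_of_mem _ rfl) (w ^ (n + m)) (F.pow_mem hw _)
  rw [one_mul] at h2
  rw [abs_le] at h1
  linarith [h1.2]

/-- Two sided translates by compact sets: the type is `j`. -/
theorem one_K (h3 : Tendsto (fun g : G1 => μ {x | a.a g x ≠ 1}) (𝓝 1) (𝓝 0)) {j : Fin r} {I : Type} {fl : Filter I} {f : I → G1}
    (hf : ∀ β : ℝ, 0 < β → ∃ R : ℕ, ∀ L : ℕ, ∀ᶠ n in fl, 1 - β ≤ mass μ a E (one A j R L) (f n))
    {K : Set G1} (hK : IsCompact K) {β : ℝ} (hβ : 0 < β) :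
    ∃ R : ℕ, ∀ L : ℕ, ∀ᶠ n in fl, ∀ k ∈ K, ∀ k' ∈ K, 1 - β ≤ mass μ a E (one A j R L) (k * f n * k') := by
  obtain ⟨Q, C, hC, h⟩ := mass_transfer (E := E) h3 hK (half_pos hβ)
  have hC' : (0 : ℝ) < C + 1 := by linarith
  obtain ⟨R0, hR0⟩ := hf (β / (2 * (C + 1))) (by positivity)
  obtain ⟨C0, hC0⟩ := shf_one A Q j
  refine ⟨R0 + C0, fun L => ?_⟩
  filter_upwards [hR0 (L + C0)] with n hn k hk k' hk'
  have e1 := h k hk k' hk' (f n) (one A j (R0 + C0) L)ᶜ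
  have e2 := mass_mono (μ := μ) (a := a) (E := E) (hC0 R0 L) (f n)
  have e3 := mass_compl (μ := μ) (a := a) (E := E) (one A j R0 (L + C0)) (f n)
  have e5 := mass_compl (μ := μ) (a := a) (E := E) (one A j (R0 + C0) L) (k * f n * k')
  have e4 : C * mass μ a E (shf Q (one A j (R0 + C0) L)ᶜ) (f n) ≤ C * (β / (2 * (C + 1))) :=
    mul_le_mul_of_nonneg_left (e2.trans (by linarith)) hC
  have e6 : C * (β / (2 * (C + 1))) < β / 2 := by
    rw [mul_div_assoc', div_lt_div_iff₀ (by positivity) two_pos]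
    nlinarith
  linarith

/-- The type of `V_{w^n g w^m}`, `g = p l q` in the big cell of `w`, is `j`. -/
theorem one_cell (h3 : Tendsto (fun g : G1 => μ {x | a.a g x ≠ 1}) (𝓝 1) (𝓝 0)) {w p l q : G1} {j : Fin r}
    (hw : ∀ β : ℝ, 0 < β → ∃ R : ℕ, ∀ L : ℕ, ∀ᶠ n : ℕ in atTop, 1 - β ≤ mass μ a E (one A j R L) (w ^ n))
    (hp : Tendsto (fun n : ℕ => w ^ n * p * (w ^ n)⁻¹) atTop (𝓝 1)) (hl : l * w = w * l)
    (hq : Tendsto (fun m : ℕ => (w ^ m)⁻¹ * q * w ^ m) atTop (𝓝 1)) {β : ℝ} (hβ : 0 < β) :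
    ∃ R : ℕ, ∀ L : ℕ, ∃ n0 : ℕ, ∀ n m : ℕ, n0 ≤ n → n0 ≤ m →
      1 - β ≤ mass μ a E (one A j R L) (w ^ n * (p * l * q) * w ^ m) := by
  obtain ⟨R, hR⟩ := one_K (A := A) (E := E) h3 hw (K := {1, l}) (Set.toFinite _).isCompact (half_pos hβ)
  obtain ⟨n1, hn1⟩ := mass_sandwich (μ := μ) (a := a) (E := E) h3 hp hl hq (half_pos hβ)
  refine ⟨R, fun L => ?_⟩
  obtain ⟨n2, hn2⟩ := eventually_atTop.1 (hR L)
  refine ⟨max n1 n2, fun n m hn hm => ?_⟩
  have h1 := hn1 n m ((le_max_left _ _).trans hn) ((le_max_left _ _).trans hm) (one A j R L)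
  have h2 := hn2 (n + m) (by have := (le_max_right n1 n2).trans hn; omega) 1 (Set.mem_insert _ _) l
    (Set.mem_insert_of_mem _ rfl)
  rw [one_mul] at h2
  rw [abs_le] at h1
  linarith [h1.1]

end Pool.Agent.Helper9.FQ
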